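import Pool.Agent.H.MP_e319d1_co.Cox

namespace Pool.Agent.Results.MP_948f5d_co.Prime

open Pool.Agent.H.MP_e319d1_co

theorem result {B W : Type*} [Group W] (M : CoxeterMatrix B) (cs : CoxeterSystem M W)
    (hsl : ∀ s t, s ≠ t → M s t = 2 ∨ M s t = 3) (α : List B) (hα : cs.IsReduced α)
    (hlink : α.length = 1 ∨
      (Odd α.length ∧ shadows M α = {j | Even j ∧ j + 3 ≤ α.length}))
    {X Y : Type*} [Nontrivial X] [Nontrivial Y] (G : SimpleGraph X) (H : SimpleGraph Y) :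
    IsEmpty (braidGraph M α ≃g G □ H) := by
  refine ⟨fun φ => ?_⟩
  refine ((toTok cs hsl hα).toSys ⟨α, Relation.ReflTransGen.refl⟩).prime G H α.length ?_ ?_ φ
  · intro x j y h
    have hl : j + 2 < α.length := (toTok cs hsl hα).lt x j y h
    rcases hlink with h1 | ⟨-, h2⟩
    · omega
    · have : j ∈ shadows M α := ⟨x.1, x.2, y.1, h⟩
      rw [h2] at this
      exact ⟨Nat.even_iff.1 this.1, hl⟩
  · intro j h1 h2
    rcases hlink with h3 | ⟨-, h3⟩
    · omega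
    · have : j ∈ shadows M α := by rw [h3]; exact ⟨Nat.even_iff.2 h1, by omega⟩
      obtain ⟨β, hβ, γ, h⟩ := this
      exact ⟨⟨β, hβ⟩, ⟨γ, Relation.ReflTransGen.tail hβ ⟨j, h⟩⟩, h⟩

end Pool.Agent.Results.MP_948f5d_co.Prime
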